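import Pool.Agent.Helper55.SCH.Goals

set_option autoImplicit false

/-!
# Project SCH: facts on the clamp and the Huber function
-/

namespace Pool.Agent.Helper30.SCH

open Pool.Agent.Helper55.SCH

/-- The three cases. -/
theorem tri (lam t : ℝ) (hl : 0 < lam) :
    (t ≤ -lam ∧ Phi lam t = -1 ∧ Hub lam t = -t - lam / 2) ∨
    (-lam ≤ t ∧ t ≤ lam ∧ lam * Phi lam t = t ∧ Hub lam t = lam * Phi lam t ^ 2 / 2 ∧
      -1 ≤ Phi lam t ∧ Phi lam t ≤ 1) ∨
    (lam ≤ t ∧ Phi lam t = 1 ∧ Hub lam t = t - lam / 2) := by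
  rcases le_or_gt t (-lam) with h1 | h1
  · left
    have h2 : t / lam ≤ -1 := by
      rw [div_le_iff₀ hl]
      linarith
    refine ⟨h1, ?_, ?_⟩
    · unfold Phi
      rw [min_eq_right (by linarith), max_eq_left h2]
    · unfold Hub
      have ht : |t| = -t := abs_of_nonpos (by linarith)
      rw [ht]
      split_ifs with h3
      · have h4 : t = -lam := by linarith
        rw [h4]
        field_simp
        ring
      · rfl
  · rcases le_or_gt t lam with h2 | h2
    · right
      left
      have h3 : t / lam ≤ 1 := by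
        rw [div_le_iff₀ hl]
        linarith
      have h4 : -1 ≤ t / lam := by
        rw [le_div_iff₀ hl]
        linarith
      have h5 : Phi lam t = t / lam := by
        unfold Phi
        rw [min_eq_right h3, max_eq_right h4]
      refine ⟨h1.le, h2, ?_, ?_, ?_, ?_⟩
      · rw [h5]
        field_simp
      · unfold Hub
        rw [if_pos (abs_le.2 ⟨h1.le, h2⟩), h5]
        field_simp
      · rw [h5]
        exact h4
      · rw [h5]
        exact h3
    · right
      right
      have h3 : 1 ≤ t / lam := by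
        rw [le_div_iff₀ hl]
        linarith
      refine ⟨h2.le, ?_, ?_⟩
      · unfold Phi
        rw [min_eq_left h3, max_eq_right (by norm_num)]
      · unfold Hub
        have ht : |t| = t := abs_of_pos (by linarith)
        rw [ht, if_neg (by linarith)]

theorem goalHUB : G_HUB := by
  intro lam hl
  refine ⟨?_, ?_, ?_, ?_, ?_, ?_, ?_, ?_⟩
  · intro t
    unfold Phi
    rw [abs_le]
    exact ⟨le_max_left _ _, max_le (by norm_num) (min_le_left _ _)⟩
  · intro t
    constructor
    · unfold Phi
      rw [neg_div]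
      simp only [min_def, max_def]
      split_ifs <;> linarith
    · unfold Hub
      rw [abs_neg, neg_sq]
  · intro a b
    rw [le_div_iff₀ hl]
    have key : ∀ x y : ℝ, x ≤ y → |Phi lam x - Phi lam y| * lam ≤ |x - y| := by
      intro x y hxy
      rw [abs_sub_comm x y, abs_of_nonneg (sub_nonneg.2 hxy)]
      rcases tri lam x hl with ⟨h1, h2, -⟩ | ⟨h1, h2, h3, -, h5, h6⟩ | ⟨h1, h2, -⟩ <;>
      rcases tri lam y hl with ⟨k1, k2, -⟩ | ⟨k1, k2, k3, -, k5, k6⟩ | ⟨k1, k2, -⟩
      all_goals
        rcases abs_cases (Phi lam x - Phi lam y) with ⟨e, -⟩ | ⟨e, -⟩ <;> rw [e] <;> nlinarith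
    rcases le_total a b with h | h
    · exact key a b h
    · rw [abs_sub_comm (Phi lam a), abs_sub_comm a]
      exact key b a h
  · intro a b
    rw [le_div_iff₀ (by positivity)]
    rcases tri lam a hl with ⟨h1, h2, h4⟩ | ⟨h1, h2, h3, h4, h5, h6⟩ | ⟨h1, h2, h4⟩ <;>
    rcases tri lam b hl with ⟨k1, k2, k4⟩ | ⟨k1, k2, k3, k4, k5, k6⟩ | ⟨k1, k2, k4⟩
    all_goals rw [h4, k4]
    · rw [h2]; constructor <;> nlinarith
    · rw [h2]
      constructor
      · nlinarith [sq_nonneg (Phi lam b + 1)]
      · nlinarith [sq_nonneg (Phi lam b + 1)]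
    · rw [h2]
      constructor
      · nlinarith
      · nlinarith [sq_nonneg (b - a - 2 * lam)]
    · constructor
      · nlinarith [sq_nonneg (Phi lam a + 1)]
      · nlinarith [sq_nonneg (Phi lam a + 1)]
    · constructor
      · nlinarith [sq_nonneg (Phi lam a - Phi lam b)]
      · have h7 : (b - a) ^ 2 = lam ^ 2 * (Phi lam b - Phi lam a) ^ 2 := by
          rw [← h3, ← k3]
          rw [k3, h3]
          nlinarith
        nlinarith
    · constructor
      · nlinarith [sq_nonneg (Phi lam a - 1)]
      · nlinarith [sq_nonneg (Phi lam a - 1)]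
    · rw [h2]
      constructor
      · nlinarith
      · nlinarith [sq_nonneg (b - a - 2 * lam)]
    · rw [h2]
      constructor
      · nlinarith [sq_nonneg (Phi lam b - 1)]
      · nlinarith [sq_nonneg (Phi lam b - 1)]
    · rw [h2]; constructor <;> nlinarith
  · intro t
    rcases tri lam t hl with ⟨h1, h2, h4⟩ | ⟨h1, h2, h3, h4, h5, h6⟩ | ⟨h1, h2, h4⟩
    · rw [h4, abs_of_nonpos (by linarith)]
      constructor <;> linarith
    · rw [h4]
      rcases abs_cases t with ⟨e, hs⟩ | ⟨e, hs⟩
      · have h7 : 0 ≤ Phi lam t := by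
          by_contra h8
          push Not at h8
          nlinarith
        rw [e]
        constructor
        · nlinarith [sq_nonneg (Phi lam t - 1)]
        · nlinarith [mul_nonneg (mul_nonneg hl.le h7) (sub_nonneg.2 h6)]
      · have h7 : Phi lam t ≤ 0 := by
          by_contra h8
          push Not at h8
          nlinarith
        rw [e]
        constructor
        · nlinarith [sq_nonneg (Phi lam t + 1)]
        · nlinarith [mul_nonneg (mul_nonneg hl.le (neg_nonneg.2 h7)) (by linarith : 0 ≤ Phi lam t + 1)]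
    · rw [h4, abs_of_nonneg (by linarith)]
      constructor <;> linarith
  · intro t
    rcases tri lam t hl with ⟨h1, h2, h4⟩ | ⟨h1, h2, h3, h4, h5, h6⟩ | ⟨h1, h2, h4⟩
    · rw [h4, h2]
      linarith
    · rw [h4]
      nlinarith [mul_nonneg hl.le (sub_nonneg.2 (by nlinarith : Phi lam t ^ 2 ≤ 1))]
    · rw [h4, h2]
      linarith
  · intro t ht
    rcases tri lam t hl with ⟨h1, h2, h4⟩ | ⟨h1, h2, h3, h4, h5, h6⟩ | ⟨h1, h2, h4⟩
    · exact h2
    · have h7 : t = -lam := le_antisymm ht h1
      have h8 : lam * (Phi lam t + 1) = 0 := by rw [mul_add, h3, h7]; ring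
      rcases mul_eq_zero.1 h8 with h9 | h9
      · exact absurd h9 hl.ne'
      · linarith
    · linarith
  · intro t ht
    rcases tri lam t hl with ⟨h1, h2, h4⟩ | ⟨h1, h2, h3, h4, h5, h6⟩ | ⟨h1, h2, h4⟩
    · linarith
    · have h7 : t = lam := le_antisymm h2 ht
      have h8 : lam * (Phi lam t - 1) = 0 := by rw [mul_sub, h3, h7]; ring
      rcases mul_eq_zero.1 h8 with h9 | h9
      · exact absurd h9 hl.ne'
      · linarith
    · exact h2

end Pool.Agent.Helper30.SCH
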